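import Mathlib
import Pool.Agent.Lib.MP_459901_an.Torus
import Pool.Agent.Lib.MP_459901_an.Transfer

/-! Exponentially mixing pulsed diffusions need not dissipate doubly exponentially: a cat map
conjugated by a smooth shear on the flat torus `ℝ²/ℤ²`. -/

set_option autoImplicit false

open MeasureTheory
open Pool.Agent.Lib.MP_459901_an

namespace Pool.Agent.Results.MP_459901_an.NoUniformDoubleExp

/-- **Theorem.** There is a `C^∞` volume-preserving diffeomorphism `φ` of the flat torus which is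
exponentially mixing, but for which, with the fixed real mean-zero datum `θ₀ = 2 cos (2π y)`, and
for every `C > 0`, `γ > 1`, `ν₀ > 0`, the bound `‖θ_n‖ ≤ exp (-ν γ^n / C) ‖θ₀‖` fails for some
`ν ∈ (0, ν₀]` and some `n ≥ 1`. -/
theorem result :
    ∃ φ : T2 → T2, IsSmoothDiffeo φ ∧ MeasurePreserving φ vol vol ∧ ExponentiallyMixing φ ∧
      ∀ C > (0:ℝ), ∀ γ > (1:ℝ), ∀ ν₀ > (0:ℝ), ∃ ν : ℝ, 0 < ν ∧ ν ≤ ν₀ ∧ ∃ n : ℕ, 1 ≤ n ∧
        Real.exp (-(ν * γ ^ n / C)) * l2norm datum < l2norm ((pulseStep φ ν)^[n] datum) :=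
  ⟨phi, phi_smooth, mp_phi, phi_exponentiallyMixing,
    fun _ hC _ hγ _ hν₀ => datum_not_dexp hC hγ hν₀⟩

end Pool.Agent.Results.MP_459901_an.NoUniformDoubleExp
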